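import Pool.Agent.Helper62.BX.Stm

/-!
# The three conclusions
-/

set_option autoImplicit false

open Finset Polynomial NumberField IsDedekindDomain

namespace Pool.Agent.Helper62.BX

open Classical in
theorem conc (hCount : X_Count) (hSieve : X_Sieve) (hMost : X_Most) (K : Type) [Field K]
    [NumberField K] (r : ℕ) (Good : HeightOneSpectrum (𝓞 K) → (Fin r → ℕ) → ℕ → Prop)
    (hPer : Per Good) (hFew : FewR (fun _ => True) Good) :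
    (∀ ε : ℝ, 0 < ε → {v : HeightOneSpectrum (𝓞 K) | (Ideal.absNorm v.asIdeal).Prime ∧
      ε * (Ideal.absNorm v.asIdeal : ℝ) ^ (r + 1) <
        (((Fintype.piFinset fun _ : Fin (r + 1) => range (Ideal.absNorm v.asIdeal)).filter
          fun u => ¬ Good v (fun i => u i.castSucc) (u (Fin.last r))).card : ℝ)}.Finite) ∧
    (∀ η : ℝ, 0 < η → ∀ θ : ℝ, 0 < θ → θ < 1 → ∃ A : ℝ, ∀ X Q₀ Q₁ : ℕ, 1 ≤ Q₀ →
      ({u : Fin (r + 1) → ℕ | (∀ i, 1 ≤ u i ∧ u i ≤ X) ∧ ∃ Q, Q₀ ≤ Q ∧ Q ≤ Q₁ ∧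
        (Nat.card {v : HeightOneSpectrum (𝓞 K) // Ideal.absNorm v.asIdeal ≤ Q ∧
          Good v (fun i => u i.castSucc) (u (Fin.last r))} : ℝ) <
        (1 - η) * Nat.card {v : HeightOneSpectrum (𝓞 K) //
          Ideal.absNorm v.asIdeal ≤ Q}}.ncard : ℝ) ≤
      A * ((X : ℝ) ^ (r + 1) * (Q₀ : ℝ) ^ (θ - 1) + (X : ℝ) ^ r * (Q₁ : ℝ) ^ (1 + θ))) ∧
    (∀ η δ : ℝ, 0 < η → 0 < δ → ∃ C : ℝ, ∀ X Q₀ Q₁ : ℕ, 1 ≤ Q₀ → (X : ℝ) ^ δ * Q₀ ≤ Q₁ →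
      ({u : Fin (r + 1) → ℕ | (∀ i, 1 ≤ u i ∧ u i ≤ X) ∧
        (Nat.card {j : ℕ // (Q₀ ≤ 2 ^ j ∧ 2 ^ j ≤ Q₁) ∧
          (1 - η) * Nat.card {v : HeightOneSpectrum (𝓞 K) // Ideal.absNorm v.asIdeal ≤ 2 ^ j} ≤
          (Nat.card {v : HeightOneSpectrum (𝓞 K) // Ideal.absNorm v.asIdeal ≤ 2 ^ j ∧
            Good v (fun i => u i.castSucc) (u (Fin.last r))} : ℝ)} : ℝ) <
        (1 - η) * Nat.card {j : ℕ // Q₀ ≤ 2 ^ j ∧ 2 ^ j ≤ Q₁}}.ncard : ℝ) ≤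
      C * ((X : ℝ) ^ r * Q₁)) := by
  have h1 : ∀ ε : ℝ, 0 < ε → {v : HeightOneSpectrum (𝓞 K) | (Ideal.absNorm v.asIdeal).Prime ∧
      ε * (Ideal.absNorm v.asIdeal : ℝ) ^ (r + 1) <
        (((Fintype.piFinset fun _ : Fin (r + 1) => range (Ideal.absNorm v.asIdeal)).filter
          fun u => ¬ Good v (fun i => u i.castSucc) (u (Fin.last r))).card : ℝ)}.Finite := by
    intro ε hε
    refine (hCount K r (fun _ => True) Good hFew ε hε).subset fun v hv => ⟨hv.1, trivial, hv.2⟩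
  exact ⟨h1, hSieve K r Good hPer h1, hMost K r Good hPer hFew⟩

/-- A condition which holds at almost all places of prime norm. -/
theorem few_true {K : Type} [Field K] [NumberField K] {r : ℕ}
    {Cond : HeightOneSpectrum (𝓞 K) → Prop}
    {Good : HeightOneSpectrum (𝓞 K) → (Fin r → ℕ) → ℕ → Prop} (hFew : FewR Cond Good)
    (hC : {v : HeightOneSpectrum (𝓞 K) | (Ideal.absNorm v.asIdeal).Prime ∧ ¬ Cond v}.Finite) :
    FewR (fun _ => True) Good := by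
  intro ε hε
  obtain ⟨c, hc, h⟩ := hFew ε hε
  refine ⟨c, hc, (h.union hC).subset fun v hv => ?_⟩
  by_cases h1 : Cond v
  · exact Or.inl ⟨hv.1, h1, hv.2.2⟩
  · exact Or.inr ⟨hv.1, h1⟩

end Pool.Agent.Helper62.BX
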