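import Pool.Agent.Helper62.BX.Stm
import Pool.Graph.R_pool_sql_team_seeded_3997aac3.Q267.DC.Sup2

/-!
# The reduction of a member modulo a place depends only on the parameters modulo the place
-/

set_option autoImplicit false

open Finset Polynomial

namespace Pool.Agent.Helper62.BX

open NumberField IsDedekindDomain
open Pool.Agent.Helper62.BM Pool.Agent.Helper62.BW
open Pool.Agent.Q267.OD (charP_res)

section

variable {K : Type} [Field K] [NumberField K] {r : ℕ}

theorem ev_mod (v : HeightOneSpectrum (𝓞 K)) (hv : (Ideal.absNorm v.asIdeal).Prime)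
    (s : Fin r → ℕ) :
    (algebraMap (𝓞 K) v.asIdeal.ResidueField).comp (evs s) =
      (algebraMap (𝓞 K) v.asIdeal.ResidueField).comp
        (evs fun i => s i % Ideal.absNorm v.asIdeal) := by
  have := charP_res v hv
  unfold evs
  refine MvPolynomial.ringHom_ext (fun x => ?_) (fun i => ?_)
  · simp
  · simp only [RingHom.comp_apply, MvPolynomial.eval_X, map_natCast]
    exact (CharP.natCast_eq_natCast' _ (Ideal.absNorm v.asIdeal) (Nat.mod_modEq _ _)).symm

theorem nat_mod (v : HeightOneSpectrum (𝓞 K)) (hv : (Ideal.absNorm v.asIdeal).Prime) (t : ℕ) :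
    (t : v.asIdeal.ResidueField) =
      ((t % Ideal.absNorm v.asIdeal : ℕ) : v.asIdeal.ResidueField) := by
  have := charP_res v hv
  exact (CharP.natCast_eq_natCast' _ (Ideal.absNorm v.asIdeal) (Nat.mod_modEq _ _)).symm

theorem map_mod (v : HeightOneSpectrum (𝓞 K)) (hv : (Ideal.absNorm v.asIdeal).Prime)
    (s : Fin r → ℕ) (f : (Rp K r)[X]) :
    (f.map (evs s)).map (algebraMap (𝓞 K) v.asIdeal.ResidueField) =
      (f.map (evs fun i => s i % Ideal.absNorm v.asIdeal)).map
        (algebraMap (𝓞 K) v.asIdeal.ResidueField) := by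
  rw [Polynomial.map_map, Polynomial.map_map, ev_mod v hv]

theorem phi_mod (v : HeightOneSpectrum (𝓞 K)) (hv : (Ideal.absNorm v.asIdeal).Prime)
    (s : Fin r → ℕ) (t : ℕ) (φ : (Rp K r)[X]) :
    algebraMap (𝓞 K) v.asIdeal.ResidueField ((φ.map (evs s)).eval (t : 𝓞 K)) =
      algebraMap (𝓞 K) v.asIdeal.ResidueField
        ((φ.map (evs fun i => s i % Ideal.absNorm v.asIdeal)).eval
          ((t % Ideal.absNorm v.asIdeal : ℕ) : 𝓞 K)) := by
  rw [← Polynomial.eval₂_at_apply, ← Polynomial.eval₂_at_apply, map_natCast, map_natCast,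
    nat_mod v hv t, Polynomial.eval₂_eq_eval_map, Polynomial.eval₂_eq_eval_map,
    map_mod v hv]

theorem coef_mod (v : HeightOneSpectrum (𝓞 K)) (hv : (Ideal.absNorm v.asIdeal).Prime)
    (s : Fin r → ℕ) (t : ℕ) (φ : (Rp K r)[X]) :
    ((algebraMap (𝓞 K) v.asIdeal.ResidueField).comp
      (evalRingHom ((φ.map (evs s)).eval (t : 𝓞 K)))).comp (mapRingHom (evs s)) =
    ((algebraMap (𝓞 K) v.asIdeal.ResidueField).comp
      (evalRingHom ((φ.map (evs fun i => s i % Ideal.absNorm v.asIdeal)).eval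
          ((t % Ideal.absNorm v.asIdeal : ℕ) : 𝓞 K)))).comp
            (mapRingHom (evs fun i => s i % Ideal.absNorm v.asIdeal)) := by
  refine Polynomial.ringHom_ext (fun x => ?_) ?_
  · simp only [RingHom.comp_apply, coe_mapRingHom, map_C, coe_evalRingHom, eval_C]
    exact RingHom.congr_fun (ev_mod v hv s) x
  · simp only [RingHom.comp_apply, coe_mapRingHom, map_X, coe_evalRingHom, eval_X]
    exact phi_mod v hv s t φ

theorem avoids_mod (v : HeightOneSpectrum (𝓞 K)) (hv : (Ideal.absNorm v.asIdeal).Prime)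
    (s : Fin r → ℕ) (t g : ℕ) (φ : (Rp K r)[X])
    (G : MvPolynomial (Fin g × Fin g) (Rp K r)[X]) (F F' : (𝓞 K)[X]) (hF : rd v F = rd v F') :
    Avoids g (MvPolynomial.map (mapRingHom (evs s)) G) ((φ.map (evs s)).eval (t : 𝓞 K)) F v ↔
      Avoids g (MvPolynomial.map (mapRingHom (evs fun i => s i % Ideal.absNorm v.asIdeal)) G)
        ((φ.map (evs fun i => s i % Ideal.absNorm v.asIdeal)).eval
          ((t % Ideal.absNorm v.asIdeal : ℕ) : 𝓞 K)) F' v := by
  unfold Avoids
  rw [hF, MvPolynomial.eval₂_map, MvPolynomial.eval₂_map, coef_mod v hv]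

theorem perL (g : ℕ) (f φ : (Rp K r)[X]) (G : MvPolynomial (Fin g × Fin g) (Rp K r)[X]) :
    Per (GoodL g f φ G) := by
  intro v hv s t
  have hrd : rd v (membf (f.map (evs s)) (φ.map (evs s)) t) =
      rd v (membf (f.map (evs fun i => s i % Ideal.absNorm v.asIdeal))
        (φ.map (evs fun i => s i % Ideal.absNorm v.asIdeal)) (t % Ideal.absNorm v.asIdeal)) := by
    unfold rd membf
    rw [Polynomial.map_sub, Polynomial.map_sub, Polynomial.map_C, Polynomial.map_C,
      phi_mod v hv, map_mod v hv]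
  unfold GoodL
  rw [avoids_mod v hv s t g φ G _ _ hrd]
  unfold GoodOrd
  rw [hrd]

theorem perW (g : ℕ) (F : (Rp K r)[X][X]) (φ : (Rp K r)[X])
    (G : MvPolynomial (Fin g × Fin g) (Rp K r)[X]) : Per (GoodW g F φ G) := by
  intro v hv s t
  have hrd : rd v (membF (F.map (mapRingHom (evs s))) (φ.map (evs s)) t) =
      rd v (membF (F.map (mapRingHom (evs fun i => s i % Ideal.absNorm v.asIdeal)))
        (φ.map (evs fun i => s i % Ideal.absNorm v.asIdeal)) (t % Ideal.absNorm v.asIdeal)) := by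
    unfold rd membF
    rw [Polynomial.map_map, Polynomial.map_map, Polynomial.map_map, Polynomial.map_map,
      coef_mod v hv s t φ]
  unfold GoodW
  rw [avoids_mod v hv s t g φ G _ _ hrd]
  unfold GoodOrd
  rw [hrd]

theorem perC (n m : ℕ) (f φ : (Rp K r)[X])
    (G : ∀ l, MvPolynomial (Fin (dK n m l) × Fin (dK n m l)) (Rp K r)[X]) :
    Per (GoodC n m f φ G) := by
  intro v hv s t
  have h1 : rd v (f.map (evs s)) =
      rd v (f.map (evs fun i => s i % Ideal.absNorm v.asIdeal)) := map_mod v hv s f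
  have h2 : rd v ((X - C ((φ.map (evs s)).eval (t : 𝓞 K))) * f.map (evs s)) =
      rd v ((X - C ((φ.map (evs fun i => s i % Ideal.absNorm v.asIdeal)).eval
          ((t % Ideal.absNorm v.asIdeal : ℕ) : 𝓞 K))) *
            f.map (evs fun i => s i % Ideal.absNorm v.asIdeal)) := by
    unfold rd
    rw [Polynomial.map_mul, Polynomial.map_mul, Polynomial.map_sub, Polynomial.map_sub,
      Polynomial.map_C, Polynomial.map_C, phi_mod v hv, map_mod v hv]
  unfold GoodC GoodK
  rw [h1, h2, phi_mod v hv s t φ]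
  simp only [MvPolynomial.eval₂_map, coef_mod v hv s t φ]

end

theorem x_Per : X_Per := fun _ _ _ _ g f φ F G n m Gc =>
  ⟨perL g f φ G, perW g F φ G, perC n m f φ Gc⟩

end Pool.Agent.Helper62.BX
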