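import Pool.Agent.Helper62.BX.Stm
import Pool.Graph.R_seed8.Y162.HW.Spread

/-!
# Reductions of a finitely generated extension of the ring of the parameters
-/

set_option autoImplicit false

namespace Pool.Agent.Helper62.BX

theorem x_Spread : X_Spread := by
  intro R A _ _ _ _ _ _ hinj hft b hb
  have hft' : (algebraMap R A).FiniteType := RingHom.finiteType_algebraMap.mpr hft
  obtain ⟨c, hc, h⟩ := Pool.Agent.Y162.HW.chev (algebraMap R A) hinj hft' b hb
  refine ⟨c, hc, ?_⟩
  intro κ _ ψ hψ hψc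
  obtain ⟨Q, hQ, hQP, hbQ⟩ := h (RingHom.ker ψ) (RingHom.ker_isPrime ψ) hψc
  set χ : A →+* FractionRing (A ⧸ Q) :=
    (algebraMap (A ⧸ Q) (FractionRing (A ⧸ Q))).comp (Ideal.Quotient.mk Q) with hχ
  have hkerχ : ∀ a : A, χ a = 0 ↔ a ∈ Q := by
    intro a
    rw [hχ, RingHom.comp_apply, ← Ideal.Quotient.eq_zero_iff_mem]
    constructor
    · intro h0
      exact IsFractionRing.injective (A ⧸ Q) (FractionRing (A ⧸ Q)) (by rw [h0, map_zero])
    · intro h0
      rw [h0, map_zero]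
  have hle : RingHom.ker ψ ≤ RingHom.ker (χ.comp (algebraMap R A)) := by
    intro x hx
    rw [RingHom.mem_ker, RingHom.comp_apply, hkerχ, ← Ideal.mem_comap, hQP]
    exact hx
  refine ⟨FractionRing (A ⧸ Q), inferInstance, χ,
    ψ.liftOfSurjective hψ ⟨χ.comp (algebraMap R A), hle⟩, ?_, ?_⟩
  · ext x
    simp only [RingHom.comp_apply]
    exact (RingHom.liftOfRightInverse_comp_apply ψ _ _ ⟨χ.comp (algebraMap R A), hle⟩ x).symm
  · rw [Ne, hkerχ]
    exact hbQ

end Pool.Agent.Helper62.BX
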