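import Pool.Agent.Helper62.BM.KMain
import Pool.Agent.Helper62.BW.Main
import Pool.Agent.Helper62.BX.Per
import Pool.Agent.Helper62.BX.Spread
import Pool.Agent.Helper4.BW.FewK
import Pool.Agent.Helper4.BX.C
import Pool.Agent.Helper4.BX.W
import Pool.Agent.Helper12.BW.Strong
import Pool.Agent.Helper13.BX.LS
import Pool.Agent.Helper15.BX.Free
import Pool.Agent.Helper15.BX.MostC
import Pool.Agent.Helper15.BX.Sieve
import Pool.Agent.Helper82.BX.Count
import Pool.Agent.Helper90.BX.XL

/-!
# Assembly: several parameters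
-/

set_option autoImplicit false

namespace Pool.Agent.Helper62.BX

open Pool.Agent.Helper62.BM Pool.Agent.Helper62.BW

theorem wFewK : W_FewK :=
  Pool.Agent.Helper4.BW.w_fewK wData Pool.Agent.Helper12.BW.w_strong Pool.Agent.Helper90.BW.w_tr
    Pool.Agent.Helper90.BW.w_irr wFewG

theorem xL : X_L := Pool.Agent.Helper90.BX.x_L x_Spread lFewG

theorem xW : X_W :=
  Pool.Agent.Helper4.BX.x_W wData Pool.Agent.Helper12.BW.w_strong Pool.Agent.Helper90.BW.w_tr
    Pool.Agent.Helper90.BW.w_irr wFewG x_Spread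

theorem xC : X_C := Pool.Agent.Helper4.BX.x_C kFewG fewG x_Spread

theorem xCount : X_Count := Pool.Agent.Helper82.BX.x_Count

theorem xFree : X_Free := Pool.Agent.Helper15.BX.x_free

theorem xSieve : X_Sieve := Pool.Agent.Helper15.BX.x_sieve

theorem xMost : X_Most := Pool.Agent.Helper15.BX.x_most Pool.Agent.Helper13.BX.x_ls

end Pool.Agent.Helper62.BX
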