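import Pool.Agent.Helper62.BX.Stm

/-!
# Families with a moving branch point, with parameters: statement
-/

set_option autoImplicit false

open Polynomial Matrix Finset Filter NumberField IsDedekindDomain

namespace Pool.Agent.Helper62.BX

open Pool.Agent.Helper62.BM Pool.Agent.Helper62.BW

/-- `y ^ 2 = (x - φ(s, t)) f(s, x)` is good at `v`. -/
def GoodB {K : Type} [Field K] [NumberField K] {r : ℕ} (g : ℕ) (f φ : (Rp K r)[X])
    (G : MvPolynomial (Fin g × Fin g) (Rp K r)[X])
    (v : HeightOneSpectrum (𝓞 K)) (s : Fin r → ℕ) (t : ℕ) : Prop :=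
  GoodOrd g (2 * g + 1) (memb (f.map (evs s)) (φ.map (evs s)) t) v ∧
    Avoids g (MvPolynomial.map (mapRingHom (evs s)) G) ((φ.map (evs s)).eval (t : 𝓞 K))
      (memb (f.map (evs s)) (φ.map (evs s)) t) v

/-- X11. As `S_FewK` (helper90's `BM/FewK.lean`, `BM/FewKMain.lean`) with the changes of helper90's `BX/XL.lean`. -/
def X_B : Prop :=
  ∀ (K : Type) [Field K] [NumberField K] (r g : ℕ), 1 ≤ g → ∀ (f φ : (Rp K r)[X]),
    f.natDegree = 2 * g →
    (f.map (algebraMap (Rp K r) (FractionRing (Rp K r)))).Separable → 1 ≤ φ.natDegree →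
    ∀ G : MvPolynomial (Fin g × Fin g) (Rp K r)[X], G ≠ 0 →
    FewR (fun _ => True) (GoodB g f φ G)

end Pool.Agent.Helper62.BX
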