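import Pool.Agent.Helper62.BX.Main
import Pool.Agent.Helper62.BX.Conc
import Pool.Agent.Helper62.BX.Stm2
import Pool.Agent.Helper18.BX.XB

/-!
# Assembly: families with a moving branch point, with parameters
-/

set_option autoImplicit false

open Finset Polynomial NumberField IsDedekindDomain

namespace Pool.Agent.Helper62.BX

open Pool.Agent.Helper62.BM Pool.Agent.Helper62.BW

theorem perB {K : Type} [Field K] [NumberField K] {r : ℕ} (g : ℕ) (f φ : (Rp K r)[X])
    (G : MvPolynomial (Fin g × Fin g) (Rp K r)[X]) : Per (GoodB g f φ G) := by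
  intro v hv s t
  have hrd : rd v (memb (f.map (evs s)) (φ.map (evs s)) t) =
      rd v (memb (f.map (evs fun i => s i % Ideal.absNorm v.asIdeal))
        (φ.map (evs fun i => s i % Ideal.absNorm v.asIdeal)) (t % Ideal.absNorm v.asIdeal)) := by
    unfold rd memb
    rw [Polynomial.map_mul, Polynomial.map_mul, Polynomial.map_sub, Polynomial.map_sub,
      Polynomial.map_C, Polynomial.map_C, phi_mod v hv, map_mod v hv, Polynomial.map_X]
  unfold GoodB
  rw [avoids_mod v hv s t g φ G _ _ hrd]
  unfold GoodOrd
  rw [hrd]

theorem xB : X_B := Pool.Agent.Helper18.BX.x_B x_Spread fewG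

end Pool.Agent.Helper62.BX
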