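import Pool.Agent.Helper62.BW.Stm
import Pool.Agent.Helper62.BM.KStm

/-!
# Families with several parameters: statements

The parameters `s = (s_1, …, s_r)` and `t` are natural numbers. The theorems on few zeros (`L_FewG`, `W_FewG`,
`S_FewG`, `K_FewG`) are for arbitrary domains `A` of characteristic zero; here `A` is a finitely generated
extension of the ring of polynomials in the parameters `s`.
-/

set_option autoImplicit false

open Polynomial Matrix Finset Filter NumberField IsDedekindDomain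

namespace Pool.Agent.Helper62.BX

open Pool.Agent.Helper62.BM Pool.Agent.Helper62.BW

/-- The ring of the parameters. -/
abbrev Rp (K : Type) [Field K] [NumberField K] (r : ℕ) : Type := MvPolynomial (Fin r) (𝓞 K)

/-- The algebraic closure of its field of fractions. -/
abbrev Cl (K : Type) [Field K] [NumberField K] (r : ℕ) : Type :=
  AlgebraicClosure (FractionRing (Rp K r))

section

variable {K : Type} [Field K] [NumberField K] {r : ℕ}

/-- The values of the parameters. -/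
noncomputable def evs (s : Fin r → ℕ) : Rp K r →+* 𝓞 K :=
  MvPolynomial.eval fun i => (s i : 𝓞 K)

/-- `y ^ 2 = f(s, x) - φ(s, t)` is good at `v`. -/
def GoodL (g : ℕ) (f φ : (Rp K r)[X]) (G : MvPolynomial (Fin g × Fin g) (Rp K r)[X])
    (v : HeightOneSpectrum (𝓞 K)) (s : Fin r → ℕ) (t : ℕ) : Prop :=
  GoodOrd g (2 * g + 1) (membf (f.map (evs s)) (φ.map (evs s)) t) v ∧
    Avoids g (MvPolynomial.map (mapRingHom (evs s)) G) ((φ.map (evs s)).eval (t : 𝓞 K))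
      (membf (f.map (evs s)) (φ.map (evs s)) t) v

/-- `y ^ 2 = F(s, x, φ(s, t))` is good at `v`. -/
def GoodW (g : ℕ) (F : (Rp K r)[X][X]) (φ : (Rp K r)[X])
    (G : MvPolynomial (Fin g × Fin g) (Rp K r)[X]) (v : HeightOneSpectrum (𝓞 K))
    (s : Fin r → ℕ) (t : ℕ) : Prop :=
  GoodOrd g (2 * g + 1) (membF (F.map (mapRingHom (evs s))) (φ.map (evs s)) t) v ∧
    Avoids g (MvPolynomial.map (mapRingHom (evs s)) G) ((φ.map (evs s)).eval (t : 𝓞 K))
      (membF (F.map (mapRingHom (evs s))) (φ.map (evs s)) t) v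

/-- `y ^ m = f(s, x) (x - φ(s, t)) ^ (m - 1)` is good at `v`. -/
def GoodC (n m : ℕ) (f φ : (Rp K r)[X])
    (G : ∀ l, MvPolynomial (Fin (dK n m l) × Fin (dK n m l)) (Rp K r)[X])
    (v : HeightOneSpectrum (𝓞 K)) (s : Fin r → ℕ) (t : ℕ) : Prop :=
  GoodK n m (f.map (evs s)) (fun l => MvPolynomial.map (mapRingHom (evs s)) (G l))
    ((φ.map (evs s)).eval (t : 𝓞 K)) v

open Classical in
/-- Few `t` are bad, uniformly in the `s` outside a hypersurface. -/
def FewR (Cond : HeightOneSpectrum (𝓞 K) → Prop)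
    (Good : HeightOneSpectrum (𝓞 K) → (Fin r → ℕ) → ℕ → Prop) : Prop :=
  ∀ ε : ℝ, 0 < ε → ∃ c : Rp K r, c ≠ 0 ∧ {v : HeightOneSpectrum (𝓞 K) |
    (Ideal.absNorm v.asIdeal).Prime ∧ Cond v ∧ ∃ s : Fin r → ℕ, evs s c ∉ v.asIdeal ∧
      ε * Ideal.absNorm v.asIdeal < (((range (Ideal.absNorm v.asIdeal)).filter
        fun t : ℕ => ¬ Good v s t).card : ℝ)}.Finite

/-- Good depends only on the parameters modulo `v`. -/
def Per (Good : HeightOneSpectrum (𝓞 K) → (Fin r → ℕ) → ℕ → Prop) : Prop :=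
  ∀ v : HeightOneSpectrum (𝓞 K), (Ideal.absNorm v.asIdeal).Prime → ∀ (s : Fin r → ℕ) (t : ℕ),
    Good v s t ↔ Good v (fun i => s i % Ideal.absNorm v.asIdeal) (t % Ideal.absNorm v.asIdeal)

end

/-- X1. Proof. `Pool.Agent.Y162.HW.chev` (`Pool.Graph.R_seed8.Y162.HW.Spread`) with `P = ker ψ`; `k` is the field
of fractions of `A / Q`, and `ι` is induced because `ψ` is surjective. -/
def X_Spread : Prop :=
  ∀ (R A : Type) [CommRing R] [IsDomain R] [IsNoetherianRing R] [CommRing A] [IsDomain A]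
    [Algebra R A], Function.Injective (algebraMap R A) → Algebra.FiniteType R A → ∀ b : A, b ≠ 0 →
    ∃ c : R, c ≠ 0 ∧ ∀ (κ : Type) [Field κ] (ψ : R →+* κ), Function.Surjective ψ → ψ c ≠ 0 →
      ∃ (k : Type) (_ : Field k) (χ : A →+* k) (ι' : κ →+* k),
        χ.comp (algebraMap R A) = ι'.comp ψ ∧ χ b ≠ 0

/-- X2. As `L_FewK` (helper4's `BL/FewK.lean`) with `Rp K r` in place of `𝓞 K`, `ψ` = the reduction of `evs s`
modulo `v`, `X_Spread` in place of `spread`, and `c` multiplied by the leading coefficients of `f`, `f'`, `φ`. -/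
def X_L : Prop :=
  ∀ (K : Type) [Field K] [NumberField K] (r g : ℕ), 1 ≤ g → ∀ (f φ : (Rp K r)[X]),
    f.natDegree = 2 * g + 1 →
    ((derivative f).map (algebraMap (Rp K r) (FractionRing (Rp K r)))).Separable →
    (∀ a b : Cl K r, aeval a (derivative f) = 0 → aeval b (derivative f) = 0 →
      aeval a f = aeval b f → a = b) → 1 ≤ φ.natDegree →
    ∀ G : MvPolynomial (Fin g × Fin g) (Rp K r)[X], G ≠ 0 →
    FewR (fun _ => True) (GoodL g f φ G)

/-- X3. As `W_FewK`, in the same way. -/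
def X_W : Prop :=
  ∀ (K : Type) [Field K] [NumberField K] (r g : ℕ), 1 ≤ g → ∀ (F : (Rp K r)[X][X])
    (φ : (Rp K r)[X]), Gen g F →
    (∃ (t₀ x₀ : Cl K r) (f₁ : (Cl K r)[X]),
      Node (F.map (mapRingHom (algebraMap (Rp K r) (Cl K r)))) t₀ x₀ f₁) →
    IrrF (Cl K r) g (F.map (mapRingHom (algebraMap (Rp K r) (Cl K r)))) → 1 ≤ φ.natDegree →
    ∀ G : MvPolynomial (Fin g × Fin g) (Rp K r)[X], G ≠ 0 →
    FewR (fun _ => True) (GoodW g F φ G)

/-- X4. As `K_FewK` (helper4's `BM/KFewK.lean`), in the same way. -/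
def X_C : Prop :=
  ∀ (K : Type) [Field K] [NumberField K] (r n m : ℕ), 2 ≤ n → 2 ≤ m → Nat.Coprime m (n - 1) →
    ∀ (f φ : (Rp K r)[X]), f.natDegree = n →
    (f.map (algebraMap (Rp K r) (FractionRing (Rp K r)))).Separable → 1 ≤ φ.natDegree →
    ∀ G : ∀ l, MvPolynomial (Fin (dK n m l) × Fin (dK n m l)) (Rp K r)[X], (∀ l, G l ≠ 0) →
    FewR (fun v => m ∣ Ideal.absNorm v.asIdeal - 1) (GoodC n m f φ G)

open Classical in
/-- X5. Proof. Schwartz-Zippel (`MvPolynomial.schwartz_zippel_totalDegree` or `…_sum_degreeOf`) for the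
reduction of `c` modulo `v`, which is not zero for almost all `v`: at most `deg c * p ^ (r - 1)` points of
`F_p ^ r` are on `c = 0`, for all the others at most `ε / 2 * p` of the `t` are bad. -/
def X_Count : Prop :=
  ∀ (K : Type) [Field K] [NumberField K] (r : ℕ) (Cond : HeightOneSpectrum (𝓞 K) → Prop)
    (Good : HeightOneSpectrum (𝓞 K) → (Fin r → ℕ) → ℕ → Prop), FewR Cond Good →
    ∀ ε : ℝ, 0 < ε → {v : HeightOneSpectrum (𝓞 K) | (Ideal.absNorm v.asIdeal).Prime ∧ Cond v ∧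
      ε * (Ideal.absNorm v.asIdeal : ℝ) ^ (r + 1) <
        (((Fintype.piFinset fun _ : Fin (r + 1) => range (Ideal.absNorm v.asIdeal)).filter
          fun u => ¬ Good v (fun i => u i.castSucc) (u (Fin.last r))).card : ℝ)}.Finite

open Classical in
/-- X6. As helper72's `allscales` (`BM/Sieve.lean`), from `abs_sup` with `J = Fin (r + 1)`. -/
def X_Sieve : Prop :=
  ∀ (K : Type) [Field K] [NumberField K] (r : ℕ)
    (Good : HeightOneSpectrum (𝓞 K) → (Fin r → ℕ) → ℕ → Prop), Per Good →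
    (∀ ε : ℝ, 0 < ε → {v : HeightOneSpectrum (𝓞 K) | (Ideal.absNorm v.asIdeal).Prime ∧
      ε * (Ideal.absNorm v.asIdeal : ℝ) ^ (r + 1) <
        (((Fintype.piFinset fun _ : Fin (r + 1) => range (Ideal.absNorm v.asIdeal)).filter
          fun u => ¬ Good v (fun i => u i.castSucc) (u (Fin.last r))).card : ℝ)}.Finite) →
    ∀ η : ℝ, 0 < η → ∀ θ : ℝ, 0 < θ → θ < 1 → ∃ A : ℝ, ∀ X Q₀ Q₁ : ℕ, 1 ≤ Q₀ →
      ({u : Fin (r + 1) → ℕ | (∀ i, 1 ≤ u i ∧ u i ≤ X) ∧ ∃ Q, Q₀ ≤ Q ∧ Q ≤ Q₁ ∧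
        (Nat.card {v : HeightOneSpectrum (𝓞 K) // Ideal.absNorm v.asIdeal ≤ Q ∧
          Good v (fun i => u i.castSucc) (u (Fin.last r))} : ℝ) <
        (1 - η) * Nat.card {v : HeightOneSpectrum (𝓞 K) //
          Ideal.absNorm v.asIdeal ≤ Q}}.ncard : ℝ) ≤
      A * ((X : ℝ) ^ (r + 1) * (Q₀ : ℝ) ^ (θ - 1) + (X : ℝ) ^ r * (Q₁ : ℝ) ^ (1 + θ))

/-- X7. The larger sieve with uniform constants: the proof of `Pool.Agent.Q267.AP.ls_main`
(`Pool/Graph/R_pool_sql_team_seeded_3997aac3/Q267/AP/LS.lean`); `ε` there depends only on `K`, `η`, `δ`, and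
`C` on the exceptional set for this `ε`. -/
def X_LS : Prop :=
  ∀ (K : Type) [Field K] [NumberField K] (η δ : ℝ), 0 < η → 0 < δ → ∃ ε : ℝ, 0 < ε ∧
    ∀ E₀ : Finset (HeightOneSpectrum (𝓞 K)), ∃ C : ℝ, 0 < C ∧
    ∀ B : ℕ → HeightOneSpectrum (𝓞 K) → Prop,
    (∀ t (v : HeightOneSpectrum (𝓞 K)), (Ideal.absNorm v.asIdeal).Prime →
      (B t v ↔ B (t % Ideal.absNorm v.asIdeal) v)) →
    (∀ v : HeightOneSpectrum (𝓞 K), (Ideal.absNorm v.asIdeal).Prime → v ∉ E₀ →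
      ({t : ℕ | t < Ideal.absNorm v.asIdeal ∧ B t v}.ncard : ℝ) ≤ ε * Ideal.absNorm v.asIdeal) →
    ∀ X Q₀ Q₁ : ℕ, 1 ≤ Q₀ → (X : ℝ) ^ δ * Q₀ ≤ Q₁ → ∀ E : Set ℕ,
      (∀ t ∈ E, 1 ≤ t ∧ t ≤ X ∧ η * Nat.card {j : ℕ // Q₀ ≤ 2 ^ j ∧ 2 ^ j ≤ Q₁} ≤
        Nat.card {j : ℕ // (Q₀ ≤ 2 ^ j ∧ 2 ^ j ≤ Q₁) ∧
          η * Nat.card {v : HeightOneSpectrum (𝓞 K) // Ideal.absNorm v.asIdeal ≤ 2 ^ j} <
          Nat.card {v : HeightOneSpectrum (𝓞 K) // Ideal.absNorm v.asIdeal ≤ 2 ^ j ∧ B t v}}) →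
      (E.ncard : ℝ) ≤ C * Q₁

/-- X8. Most scales, with few exceptions, in several parameters. Proof. Let `ε` be the one of `X_LS` for
`η / 4`, `δ`; `c`, `E₀` from `FewR`. The `u` with `c(s) = 0` are at most `C X ^ r` (Schwartz-Zippel). For fixed `s`
with `c(s) ≠ 0` let `B t v` mean that `v` is not good for `(s, t)` and does not divide `c(s)`; the places dividing
`c(s)` are at most `C log (2 X)` and matter only at the scales `2 ^ j ≤ C (log (2 X)) ^ 2`, which are at most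
`η / 4` of all the scales (these are at least `δ log X / log 2 - 1`) if `X` is large (for the other `X` everything
is at most `C X ^ r`, since `Q₁ ≥ 1`). So the exceptional `t` for this `s` satisfy the hypothesis of `X_LS`. -/
def X_Most : Prop :=
  ∀ (K : Type) [Field K] [NumberField K] (r : ℕ)
    (Good : HeightOneSpectrum (𝓞 K) → (Fin r → ℕ) → ℕ → Prop), Per Good →
    FewR (fun _ => True) Good →
    ∀ η δ : ℝ, 0 < η → 0 < δ → ∃ C : ℝ, ∀ X Q₀ Q₁ : ℕ, 1 ≤ Q₀ → (X : ℝ) ^ δ * Q₀ ≤ Q₁ →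
      ({u : Fin (r + 1) → ℕ | (∀ i, 1 ≤ u i ∧ u i ≤ X) ∧
        (Nat.card {j : ℕ // (Q₀ ≤ 2 ^ j ∧ 2 ^ j ≤ Q₁) ∧
          (1 - η) * Nat.card {v : HeightOneSpectrum (𝓞 K) // Ideal.absNorm v.asIdeal ≤ 2 ^ j} ≤
          (Nat.card {v : HeightOneSpectrum (𝓞 K) // Ideal.absNorm v.asIdeal ≤ 2 ^ j ∧
            Good v (fun i => u i.castSucc) (u (Fin.last r))} : ℝ)} : ℝ) <
        (1 - η) * Nat.card {j : ℕ // Q₀ ≤ 2 ^ j ∧ 2 ^ j ≤ Q₁}}.ncard : ℝ) ≤
      C * ((X : ℝ) ^ r * Q₁)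

/-- X9. The linear coefficient is free. Proof. Let `D` be the derivation `∂ / ∂ s_(r+1)` of the field of
fractions of `Rp K (r + 1)`, extended to the algebraic closure (`W_Irr` of helper90 / `W_Strong` use such an
extension). If `f'(a) = 0` then `D(f(a)) = a + f'(a) D(a) = a`; so `f(a) = f(b)` implies `a = b`. If
`f'(a) = f''(a) = 0` then `0 = D(f'(a)) = 1 + f''(a) D(a) = 1`, a contradiction. -/
def X_Free : Prop :=
  ∀ (K : Type) [Field K] [NumberField K] (r g : ℕ), 1 ≤ g → ∀ (h : (Rp K r)[X]) (f : (Rp K (r + 1))[X]),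
    h.natDegree = 2 * g + 1 →
    f = h.map (MvPolynomial.rename Fin.castSucc).toRingHom +
      Polynomial.C (MvPolynomial.X (Fin.last r)) * X →
    f.natDegree = 2 * g + 1 ∧
    ((derivative f).map (algebraMap (Rp K (r + 1)) (FractionRing (Rp K (r + 1))))).Separable ∧
    (∀ a b : Cl K (r + 1), aeval a (derivative f) = 0 → aeval b (derivative f) = 0 →
      aeval a f = aeval b f → a = b)

/-- X10. The periodicity. -/
def X_Per : Prop :=
  ∀ (K : Type) [Field K] [NumberField K] (r g : ℕ) (f φ : (Rp K r)[X]) (F : (Rp K r)[X][X])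
    (G : MvPolynomial (Fin g × Fin g) (Rp K r)[X]) (n m : ℕ)
    (Gc : ∀ l, MvPolynomial (Fin (dK n m l) × Fin (dK n m l)) (Rp K r)[X]),
    Per (GoodL g f φ G) ∧ Per (GoodW g F φ G) ∧ Per (GoodC n m f φ Gc)

end Pool.Agent.Helper62.BX
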